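import Pool.Agent.H515R3.KCLow

set_option autoImplicit false

open Pool.Agent.H515R3.KC

/-- The exact values of `kc_r(r)` for `r = 2, 3, 4, 5` are `2, 4, 8, 16`. -/
theorem Pool.Agent.Results.MP_0386c9_co.ExactSmall.result :
    kc 2 2 = 2 ∧ kc 3 3 = 4 ∧ kc 4 4 = 8 ∧ kc 5 5 = 16 :=
  ⟨least_two.csInf_eq, least_three.csInf_eq, least_four.csInf_eq, least_five.csInf_eq⟩
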