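import Pool.Agent.H515R3.KCTwo

set_option autoImplicit false

open Pool.Agent.H515R3.KC

/-- Explicit lower bounds for `kc_r(r)` for every `r ≥ 2`. -/
theorem Pool.Agent.Results.MP_0386c9_co.TwoLevelLower.result :
    ∀ q : ℕ, 1 ≤ q →
      (2 * q + 2).choose q ≤ kc (2 * q + 1) (2 * q + 1) ∧
      (2 * q).choose (q - 1) + (2 * q - 1).choose (q - 1) ≤ kc (2 * q) (2 * q) :=
  fun q hq => ⟨odd_lower q hq, even_lower q hq⟩
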