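import Pool.Agent.H515R3.KC

set_option autoImplicit false

open Pool.Agent.H515R3.KC

/-- For every `r ≥ 2`, every `r`-partite `r`-graph with intersecting edge-covers for
`2 ^ (r - 1)` edges has cover number at most `r`; hence `kc_r(r) ≤ 2 ^ (r - 1)`. -/
theorem Pool.Agent.Results.MP_0386c9_co.UpperHalf.result :
    ∀ r : ℕ, 2 ≤ r → 2 ^ (r - 1) ∈ Good r r ∧ kc r r ≤ 2 ^ (r - 1) := by
  intro r hr
  have h : 2 ^ (r - 1) ∈ Good r r := pow_mem_Good (by omega)
  exact ⟨h, Nat.sInf_le h⟩
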